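import Pool.Agent.P.MP_f981b0_an.IS.L2

/-!
A reductive operator which is not normal, on every separable infinite-dimensional Hilbert space.
-/

set_option autoImplicit false

namespace Pool.Agent.P.MP_49c4d9_an.NN

theorem l2_inf : ¬ FiniteDimensional ℂ (lp (fun _ : ℕ => ℂ) 2) := by
  intro h
  have ho : Orthonormal ℂ (fun n : ℕ => (lp.single 2 n (1 : ℂ) : lp (fun _ : ℕ => ℂ) 2)) := by
    rw [orthonormal_iff_ite]
    intro i j
    rw [lp.inner_single_left, lp.single_apply]
    by_cases hij : i = j
    · subst hij; simp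
    · simp [hij]
  exact not_finite_iff_infinite.2 inferInstance (ho.linearIndependent.finite)

theorem main {H : Type*} [NormedAddCommGroup H] [InnerProductSpace ℂ H] [CompleteSpace H]
    [TopologicalSpace.SeparableSpace H] (hH : ¬ FiniteDimensional ℂ H) :
    ∃ T : H →L[ℂ] H,
      (∀ K : Submodule ℂ H, IsClosed (K : Set H) → (∀ x ∈ K, T x ∈ K) →
        ∀ x ∈ K, ContinuousLinearMap.adjoint T x ∈ K) ∧ ¬ IsStarNormal T := by
  obtain ⟨T, hT⟩ := Pool.Agent.IS.main_hilbert hH
  refine ⟨T, fun K hK hinv x hx => ?_, fun hn => ?_⟩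
  · rcases hT K hK hinv with h | h
    · rw [h] at hx ⊢
      rw [Submodule.mem_bot] at hx
      simp [hx]
    · rw [h]; trivial
  · obtain ⟨U⟩ := Pool.Agent.IS.exists_iso_l2 hH
    have hn0 : IsStarNormal (U.conjStarAlgEquiv T) := hn.map U.conjStarAlgEquiv
    obtain ⟨M, h1, h2, h3, h4⟩ := Pool.Agent.P.MP_f981b0_an.ISP9.normal_inv l2_inf _ hn0
    have h := hT (M.comap U.toLinearEquiv.toLinearMap) (h1.preimage U.continuous) (by
      intro x hx
      have := h4 (U x) hx
      simpa using this)
    rcases h with h | h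
    · refine h2 (eq_bot_iff.2 fun v hv => ?_)
      have a1 : U.symm v ∈ M.comap U.toLinearEquiv.toLinearMap := by simpa using hv
      rw [h] at a1
      have a2 : U.symm v = 0 := a1
      have a3 := congrArg U a2
      simpa using a3
    · refine h3 (eq_top_iff.2 fun v _ => ?_)
      have a1 : U.symm v ∈ M.comap U.toLinearEquiv.toLinearMap := by rw [h]; trivial
      simpa using a1

end Pool.Agent.P.MP_49c4d9_an.NN
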